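import Pool.Agent.helper86.OF.SpecM

/-!
# of:EJA, distribution of the inner edges of the middle phase
-/

open scoped BigOperators

namespace Pool.Agent.OF

noncomputable section

open Classical

variable {V : Type} [Fintype V]

/-- the edges of `G` inside `P` -/
def EJA_ed (G : SimpleGraph V) (P : Finset V) : Finset (Sym2 V) :=
  Finset.univ.filter fun e => e ∈ G.edgeSet ∧ ∀ v ∈ e, v ∈ P

theorem EJA_mem {G : SimpleGraph V} {P : Finset V} {e : Sym2 V} :
    e ∈ EJA_ed G P ↔ e ∈ G.edgeSet ∧ ∀ v ∈ e, v ∈ P := by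
  unfold EJA_ed
  rw [Finset.mem_filter]
  simp

theorem EJA_mk {G : SimpleGraph V} {P : Finset V} {v w : V} :
    s(v, w) ∈ EJA_ed G P ↔ G.Adj v w ∧ v ∈ P ∧ w ∈ P := by
  rw [EJA_mem, SimpleGraph.mem_edgeSet]
  constructor
  · rintro ⟨h1, h2⟩
    exact ⟨h1, h2 v (Sym2.mem_mk_left _ _), h2 w (Sym2.mem_mk_right _ _)⟩
  · rintro ⟨h1, h2, h3⟩
    refine ⟨h1, ?_⟩
    intro u hu
    rcases Sym2.mem_iff.1 hu with h | h
    · rw [h]; exact h2
    · rw [h]; exact h3

theorem EJA_ep (G : SimpleGraph V) (P : Finset V) : ep G P P = 2 * (EJA_ed G P).card := by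
  have h1 := (onG G P).sum_degrees_eq_twice_card_edges
  have h2 : (onG G P).edgeFinset = EJA_ed G P := by
    ext e
    induction e using Sym2.ind with
    | _ v w =>
      rw [SimpleGraph.mem_edgeFinset, SimpleGraph.mem_edgeSet, EJA_mk]
      rfl
  rw [h2] at h1
  rw [← h1]
  unfold ep
  have h3 : ∀ v, (onG G P).degree v = if v ∈ P then dgs G P v else 0 := by
    intro v
    rw [← SimpleGraph.card_neighborFinset_eq_degree]
    by_cases hv : v ∈ P
    · rw [if_pos hv]
      unfold dgs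
      congr 1
      ext w
      rw [SimpleGraph.mem_neighborFinset, Finset.mem_filter]
      show (G.Adj v w ∧ v ∈ P ∧ w ∈ P) ↔ _
      tauto
    · rw [if_neg hv, Finset.card_eq_zero]
      apply Finset.eq_empty_of_forall_notMem
      intro w hw
      rw [SimpleGraph.mem_neighborFinset] at hw
      exact hv hw.2.1
  simp only [h3]
  rw [Finset.sum_ite_mem, Finset.univ_inter]

/-- the number of edges at a vertex -/
theorem EJA_deg (G : SimpleGraph V) (F : Finset (Sym2 V)) (hF : ∀ e ∈ F, e ∈ G.edgeSet) (v : V) :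
    (F.filter fun e => v ∈ e).card ≤ dg G v := by
  have h1 : (F.filter fun e => v ∈ e) ⊆ (Finset.univ.filter fun w => G.Adj v w).image
      fun w => s(v, w) := by
    intro e he
    rw [Finset.mem_filter] at he
    obtain ⟨w, rfl⟩ := he.2
    refine Finset.mem_image.2 ⟨w, Finset.mem_filter.2 ⟨Finset.mem_univ _, ?_⟩, rfl⟩
    exact hF _ he.1
  exact (Finset.card_le_card h1).trans Finset.card_image_le

/-- the vertices of a set of edges -/
def EJA_vs (F : Finset (Sym2 V)) : Finset V := Finset.univ.filter fun v => ∃ e ∈ F, v ∈ e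

theorem EJA_vs1 (e : Sym2 V) : (Finset.univ.filter fun v => v ∈ e).card ≤ 2 := by
  induction e using Sym2.ind with
  | _ a b =>
    have h1 : (Finset.univ.filter fun v => v ∈ s(a, b)) ⊆ {a, b} := by
      intro v hv
      rw [Finset.mem_filter] at hv
      have := Sym2.mem_iff.1 hv.2
      simpa using this
    exact (Finset.card_le_card h1).trans Finset.card_le_two

theorem EJA_vs_card (F : Finset (Sym2 V)) : (EJA_vs F).card ≤ 2 * F.card := by
  have h1 : EJA_vs F ⊆ F.biUnion fun e => Finset.univ.filter fun v => v ∈ e := by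
    intro v hv
    unfold EJA_vs at hv
    rw [Finset.mem_filter] at hv
    obtain ⟨e, he, hve⟩ := hv.2
    exact Finset.mem_biUnion.2 ⟨e, he, Finset.mem_filter.2 ⟨Finset.mem_univ _, hve⟩⟩
  refine (Finset.card_le_card h1).trans (Finset.card_biUnion_le.trans ?_)
  calc ∑ e ∈ F, (Finset.univ.filter fun v => v ∈ e).card ≤ ∑ _e ∈ F, 2 :=
        Finset.sum_le_sum fun e _ => EJA_vs1 e
    _ = 2 * F.card := by rw [Finset.sum_const, smul_eq_mul, mul_comm]

omit [Fintype V] in
theorem EJA_ne (e : Sym2 V) : ∃ v, v ∈ e := by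
  induction e using Sym2.ind with
  | _ a b => exact ⟨a, Sym2.mem_mk_left _ _⟩

/-- disjoint edges avoiding a set -/
theorem EJA_pick (F : Finset (Sym2 V)) (D : ℕ) (hD : ∀ v, (F.filter fun e => v ∈ e).card ≤ D)
    (Z : Finset V) (r : ℕ) (h : D * (Z.card + 2 * r) < F.card) :
    ∃ S ⊆ F, S.card = r ∧ (∀ e ∈ S, ∀ v ∈ e, v ∉ Z) ∧
      ∀ e ∈ S, ∀ e' ∈ S, ∀ v, v ∈ e → v ∈ e' → e = e' := by
  induction r with
  | zero => exact ⟨∅, by simp, by simp, by simp, by simp⟩
  | succ r ih =>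
    obtain ⟨S, hSF, hSr, h1, h2⟩ := ih (lt_of_le_of_lt (Nat.mul_le_mul_left _ (by omega)) h)
    set Z' := Z ∪ EJA_vs S with hZ'
    have hZc : Z'.card ≤ Z.card + 2 * r := by
      refine (Finset.card_union_le _ _).trans ?_
      have := EJA_vs_card S
      omega
    have hB : (Z'.biUnion fun v => F.filter fun e => v ∈ e).card < F.card := by
      refine lt_of_le_of_lt Finset.card_biUnion_le ?_
      calc ∑ v ∈ Z', (F.filter fun e => v ∈ e).card ≤ ∑ _v ∈ Z', D :=
            Finset.sum_le_sum fun v _ => hD v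
        _ = D * Z'.card := by rw [Finset.sum_const, smul_eq_mul, mul_comm]
        _ ≤ D * (Z.card + 2 * (r + 1)) := Nat.mul_le_mul_left _ (by omega)
        _ < F.card := h
    obtain ⟨e, heF, heB⟩ := Finset.exists_mem_notMem_of_card_lt_card hB
    have he : ∀ v ∈ e, v ∉ Z' := by
      intro v hv hvZ
      exact heB (Finset.mem_biUnion.2 ⟨v, hvZ, Finset.mem_filter.2 ⟨heF, hv⟩⟩)
    have heS : ∀ e' ∈ S, ∀ v, v ∈ e → v ∈ e' → False := by
      intro e' he' v hv hv'
      refine he v hv ?_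
      rw [hZ', Finset.mem_union]
      right
      unfold EJA_vs
      exact Finset.mem_filter.2 ⟨Finset.mem_univ _, e', he', hv'⟩
    have heS' : e ∉ S := by
      intro h3
      obtain ⟨v, hv⟩ := EJA_ne e
      exact heS e h3 v hv hv
    refine ⟨insert e S, Finset.insert_subset heF hSF, ?_, ?_, ?_⟩
    · rw [Finset.card_insert_of_notMem heS', hSr]
    · intro e' he' v hv hvZ
      rcases Finset.mem_insert.1 he' with h3 | h3
      · rw [h3] at hv
        exact he v hv (Finset.mem_union_left _ hvZ)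
      · exact h1 e' h3 v hv hvZ
    · intro x hx y hy v hvx hvy
      rcases Finset.mem_insert.1 hx with h3 | h3 <;> rcases Finset.mem_insert.1 hy with h4 | h4
      · rw [h3, h4]
      · exact (heS y h4 v (h3 ▸ hvx) hvy).elim
      · exact (heS x h3 v (h4 ▸ hvy) hvx).elim
      · exact h2 x h3 y h4 v hvx hvy

/-- the single edges of the first `k` colours -/
structure EJA_Sg (E0 : SimpleGraph V) (P : ℕ → Finset V) (r : ℕ → ℕ) (H : ℕ → Finset V)
    (pt : ℕ → V → V) (t : ℝ) (k : ℕ) (sg : ℕ → Finset (Sym2 V)) : Prop where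
  sub : ∀ i < k, sg i ⊆ EJA_ed E0 (P i)
  crd : ∀ i < k, (sg i).card = r i
  dj : ∀ i < k, ∀ e ∈ sg i, ∀ e' ∈ sg i, ∀ v, v ∈ e → v ∈ e' → e = e'
  dis : ∀ i < k, ∀ j < k, i ≠ j → Disjoint (sg i) (sg j)
  av : ∀ i < k, ∀ e ∈ sg i, ∀ v ∈ e, v ∉ H i
  ld : ∀ u, (((Finset.range k).filter fun i => ∃ e ∈ sg i, ∃ v ∈ e, pt i v = u).card : ℝ) ≤ t

/-- the load -/
def EJA_ld (pt : ℕ → V → V) (k : ℕ) (sg : ℕ → Finset (Sym2 V)) (u : V) : ℕ :=
  ((Finset.range k).filter fun i => ∃ e ∈ sg i, ∃ v ∈ e, pt i v = u).card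

theorem EJA_sum {pt : ℕ → V → V} {k U : ℕ} {sg : ℕ → Finset (Sym2 V)}
    (h : ∀ i < k, (sg i).card ≤ U) : ∑ u, EJA_ld pt k sg u ≤ k * (2 * U) := by
  have h1 : ∑ u, EJA_ld pt k sg u = ∑ i ∈ Finset.range k,
      (Finset.univ.filter fun u => ∃ e ∈ sg i, ∃ v ∈ e, pt i v = u).card := by
    unfold EJA_ld
    simp only [Finset.card_filter]
    rw [Finset.sum_comm]
  rw [h1]
  calc ∑ i ∈ Finset.range k, (Finset.univ.filter fun u => ∃ e ∈ sg i, ∃ v ∈ e, pt i v = u).card
      ≤ ∑ _i ∈ Finset.range k, 2 * U := Finset.sum_le_sum fun i hi => by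
        have h2 : (Finset.univ.filter fun u => ∃ e ∈ sg i, ∃ v ∈ e, pt i v = u) ⊆
            (EJA_vs (sg i)).image (pt i) := by
          intro u hu
          rw [Finset.mem_filter] at hu
          obtain ⟨e, he, v, hv, hvu⟩ := hu.2
          refine Finset.mem_image.2 ⟨v, ?_, hvu⟩
          unfold EJA_vs
          exact Finset.mem_filter.2 ⟨Finset.mem_univ _, e, he, hv⟩
        have h3 := (Finset.card_le_card h2).trans Finset.card_image_le
        have h4 := EJA_vs_card (sg i)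
        have h5 := h i (Finset.mem_range.1 hi)
        omega
    _ = k * (2 * U) := by rw [Finset.sum_const, Finset.card_range, smul_eq_mul]

theorem EJA_step {E0 : SimpleGraph V} {P : ℕ → Finset V} {r : ℕ → ℕ} {H : ℕ → Finset V}
    {pt : ℕ → V → V} {t : ℝ} {k : ℕ} {sg : ℕ → Finset (Sym2 V)} {U U3 : ℕ}
    (h : EJA_Sg E0 P r H pt t k sg) (hr : ∀ i < k + 1, r i ≤ U) (hH : (H k).card ≤ U)
    (hpt : ∀ v, pt k (pt k v) = v) (h3 : ∀ v, dg E0 v ≤ U3) (O : Finset V)
    (hO : ∀ v, v ∉ O → (EJA_ld pt k sg v : ℝ) + 1 ≤ t)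
    (hc : U3 * (U + O.card + 2 * U) + k * U < (EJA_ed E0 (P k)).card) :
    ∃ sg', EJA_Sg E0 P r H pt t (k + 1) sg' := by
  set us := (Finset.range k).biUnion sg with hus
  have husc : us.card ≤ k * U := by
    refine Finset.card_biUnion_le.trans ?_
    calc ∑ i ∈ Finset.range k, (sg i).card ≤ ∑ _i ∈ Finset.range k, U :=
          Finset.sum_le_sum fun i hi => by
            have hi' := Finset.mem_range.1 hi
            rw [h.crd i hi']
            exact hr i (by omega)
      _ = k * U := by rw [Finset.sum_const, Finset.card_range, smul_eq_mul]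
  set F := EJA_ed E0 (P k) \ us with hF
  have hFc : (EJA_ed E0 (P k)).card ≤ F.card + us.card := by
    rw [hF]
    exact Finset.card_le_card_sdiff_add_card
  set Z := H k ∪ O.image (pt k) with hZ
  have hZc : Z.card ≤ U + O.card := by
    refine (Finset.card_union_le _ _).trans ?_
    have := Finset.card_image_le (s := O) (f := pt k)
    omega
  have hFe : ∀ e ∈ F, e ∈ E0.edgeSet := by
    intro e he
    rw [hF, Finset.mem_sdiff] at he
    exact (EJA_mem.1 he.1).1
  obtain ⟨S, hSF, hSr, h4, h5⟩ := EJA_pick F U3 (fun v => (EJA_deg E0 F hFe v).trans (h3 v)) Z (r k)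
    (by
      have h6 : U3 * (Z.card + 2 * r k) ≤ U3 * (U + O.card + 2 * U) :=
        Nat.mul_le_mul_left _ (by have := hr k (by omega); omega)
      omega)
  have e1 : ∀ i, i < k → Function.update sg k S i = sg i := fun i hi =>
    Function.update_of_ne (by omega) _ _
  have e2 : Function.update sg k S k = S := Function.update_self _ _ _
  refine ⟨Function.update sg k S, ?_, ?_, ?_, ?_, ?_, ?_⟩
  · intro i hi
    rcases Nat.lt_succ_iff_lt_or_eq.1 hi with hi | rfl
    · rw [e1 i hi]; exact h.sub i hi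
    · rw [e2]
      exact hSF.trans Finset.sdiff_subset
  · intro i hi
    rcases Nat.lt_succ_iff_lt_or_eq.1 hi with hi | rfl
    · rw [e1 i hi]; exact h.crd i hi
    · rw [e2]; exact hSr
  · intro i hi
    rcases Nat.lt_succ_iff_lt_or_eq.1 hi with hi | rfl
    · rw [e1 i hi]; exact h.dj i hi
    · rw [e2]; exact h5
  · have key : ∀ i < k, Disjoint (sg i) S := by
      intro i hi
      rw [Finset.disjoint_left]
      intro e he heS
      have h6 := hSF heS
      rw [hF, Finset.mem_sdiff] at h6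
      exact h6.2 (Finset.mem_biUnion.2 ⟨i, Finset.mem_range.2 hi, he⟩)
    intro i hi j hj hij
    rcases Nat.lt_succ_iff_lt_or_eq.1 hi with hi | rfl
    · rcases Nat.lt_succ_iff_lt_or_eq.1 hj with hj | rfl
      · rw [e1 i hi, e1 j hj]; exact h.dis i hi j hj hij
      · rw [e1 i hi, e2]; exact key i hi
    · rcases Nat.lt_succ_iff_lt_or_eq.1 hj with hj | rfl
      · rw [e1 j hj, e2]; exact (key j hj).symm
      · exact (hij rfl).elim
  · intro i hi
    rcases Nat.lt_succ_iff_lt_or_eq.1 hi with hi | rfl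
    · rw [e1 i hi]; exact h.av i hi
    · rw [e2]
      intro e he v hv hvH
      exact h4 e he v hv (Finset.mem_union_left _ hvH)
  · intro u
    have h6 : (Finset.range (k + 1)).filter
        (fun i => ∃ e ∈ Function.update sg k S i, ∃ v ∈ e, pt i v = u) ⊆
        ((Finset.range k).filter fun i => ∃ e ∈ sg i, ∃ v ∈ e, pt i v = u) ∪
          (if ∃ e ∈ S, ∃ v ∈ e, pt k v = u then {k} else ∅) := by
      intro i hi
      rw [Finset.mem_filter, Finset.mem_range] at hi
      rw [Finset.mem_union]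
      rcases Nat.lt_succ_iff_lt_or_eq.1 hi.1 with h7 | h7
      · left
        rw [Finset.mem_filter, Finset.mem_range]
        refine ⟨h7, ?_⟩
        have := hi.2
        rwa [e1 i h7] at this
      · right
        have := hi.2
        rw [h7, e2] at this
        rw [if_pos this, h7]
        exact Finset.mem_singleton_self _
    have h7 := (Finset.card_le_card h6).trans (Finset.card_union_le _ _)
    by_cases hu : ∃ e ∈ S, ∃ v ∈ e, pt k v = u
    · rw [if_pos hu, Finset.card_singleton] at h7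
      have h8 : u ∉ O := by
        intro huO
        obtain ⟨e, he, v, hv, hvu⟩ := hu
        refine h4 e he v hv ?_
        rw [hZ, Finset.mem_union]
        right
        refine Finset.mem_image.2 ⟨u, huO, ?_⟩
        rw [← hvu]
        exact hpt v
      have h9 := hO u h8
      have h10 : ((((Finset.range (k + 1)).filter
        (fun i => ∃ e ∈ Function.update sg k S i, ∃ v ∈ e, pt i v = u)).card : ℕ) : ℝ) ≤
          (EJA_ld pt k sg u : ℝ) + 1 := by
        exact_mod_cast h7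
      exact h10.trans h9
    · rw [if_neg hu, Finset.card_empty, add_zero] at h7
      have h10 : ((((Finset.range (k + 1)).filter
        (fun i => ∃ e ∈ Function.update sg k S i, ∃ v ∈ e, pt i v = u)).card : ℕ) : ℝ) ≤
          (((Finset.range k).filter fun i => ∃ e ∈ sg i, ∃ v ∈ e, pt i v = u).card : ℝ) := by
        exact_mod_cast h7
      exact h10.trans (h.ld u)

/-- the single edges -/
theorem EJA_singles (E0 : SimpleGraph V) (P : ℕ → Finset V) (r : ℕ → ℕ) (H : ℕ → Finset V)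
    (pt : ℕ → V → V) (q U U3 : ℕ) (τ : ℝ) (hτ : 0 < τ) (hτN : 2 ≤ τ * Fintype.card V)
    (hq : q ≤ Fintype.card V) (hr : ∀ i < q, r i ≤ U) (hH : ∀ i < q, (H i).card ≤ U)
    (hpt : ∀ i < q, ∀ v, pt i (pt i v) = v) (h3 : ∀ v, dg E0 v ≤ U3)
    (hP : ∀ i < q, 50 * (U + 1) * Fintype.card V ≤ (EJA_ed E0 (P i)).card)
    (hN : (U3 : ℝ) * (3 + 4 / τ) < Fintype.card V) :
    ∃ sg, EJA_Sg E0 P r H pt (τ * Fintype.card V) q sg := by
  set N := Fintype.card V with hNdef
  have main : ∀ k, k ≤ q → ∃ sg, EJA_Sg E0 P r H pt (τ * N) k sg := by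
    intro k
    induction k with
    | zero =>
      intro _
      refine ⟨fun _ => ∅, ?_, ?_, ?_, ?_, ?_, ?_⟩
      · intro i hi; omega
      · intro i hi; omega
      · intro i hi; omega
      · intro i hi; omega
      · intro i hi; omega
      · intro v
        simp only [Finset.range_zero, Finset.filter_empty, Finset.card_empty, Nat.cast_zero]
        linarith
    | succ k ih =>
      intro hk
      obtain ⟨sg, hs⟩ := ih (by omega)
      set O := Finset.univ.filter fun v => τ * N - 1 < (EJA_ld pt k sg v : ℝ) with hO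
      have hN1 : (0 : ℝ) < N := by
        rcases (Nat.cast_nonneg (α := ℝ) N).eq_or_lt with h4 | h4
        · rw [← h4] at hτN
          linarith
        · exact h4
      have hOc : (O.card : ℝ) ≤ 4 * U / τ := by
        have h3 : (O.card : ℝ) * (τ * N - 1) ≤ ∑ v, (EJA_ld pt k sg v : ℝ) := by
          calc (O.card : ℝ) * (τ * N - 1) = ∑ _v ∈ O, (τ * N - 1) := by
                rw [Finset.sum_const, nsmul_eq_mul]
            _ ≤ ∑ v ∈ O, (EJA_ld pt k sg v : ℝ) := Finset.sum_le_sum fun v hv => by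
                rw [hO, Finset.mem_filter] at hv
                exact hv.2.le
            _ ≤ ∑ v, (EJA_ld pt k sg v : ℝ) := Finset.sum_le_sum_of_subset_of_nonneg
                (Finset.subset_univ _) fun v _ _ => by positivity
        have h4 : ∑ v, (EJA_ld pt k sg v : ℝ) ≤ k * (2 * U) := by
          have := EJA_sum (pt := pt) (k := k) (U := U) (sg := sg) (fun i hi => by
            rw [hs.crd i hi]; exact hr i (by omega))
          exact_mod_cast this
        have h5 : (k : ℝ) ≤ N := by exact_mod_cast (by omega : k ≤ N)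
        have hr0 : (0 : ℝ) ≤ U := by positivity
        have h6 : (O.card : ℝ) * (τ * N / 2) ≤ N * (2 * U) := by
          have h7 : (O.card : ℝ) * (τ * N / 2) ≤ O.card * (τ * N - 1) :=
            mul_le_mul_of_nonneg_left (by linarith) (by positivity)
          have h8 : (k : ℝ) * (2 * U) ≤ N * (2 * U) :=
            mul_le_mul_of_nonneg_right h5 (by positivity)
          linarith
        rw [le_div_iff₀ hτ]
        have h9 : (N : ℝ) * (O.card * τ) ≤ N * (4 * U) := by nlinarith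
        exact le_of_mul_le_mul_left h9 hN1
      have hO' : ∀ v, v ∉ O → (EJA_ld pt k sg v : ℝ) + 1 ≤ τ * N := by
        intro v hv
        rw [hO, Finset.mem_filter] at hv
        have : ¬ (τ * N - 1 < (EJA_ld pt k sg v : ℝ)) := fun h => hv ⟨Finset.mem_univ _, h⟩
        linarith
      refine EJA_step (U := U) (U3 := U3) hs (fun i hi => hr i (by omega)) (hH k (by omega))
        (hpt k (by omega)) h3 O hO' ?_
      have h10 := hP k (by omega)
      have h11 : (U3 : ℝ) * (U + O.card + 2 * U) ≤ U * N := by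
        have h12 : (U : ℝ) + O.card + 2 * U ≤ U * (3 + 4 / τ) := by
          have : (U : ℝ) * (3 + 4 / τ) = 3 * U + 4 * U / τ := by ring
          rw [this]
          linarith
        calc (U3 : ℝ) * (U + O.card + 2 * U) ≤ U3 * (U * (3 + 4 / τ)) :=
              mul_le_mul_of_nonneg_left h12 (by positivity)
          _ = U * (U3 * (3 + 4 / τ)) := by ring
          _ ≤ U * N := mul_le_mul_of_nonneg_left hN.le (by positivity)
      have h12 : U3 * (U + O.card + 2 * U) ≤ U * N := by exact_mod_cast h11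
      have h13 : k * U ≤ U * N := by
        rw [mul_comm k U]
        exact Nat.mul_le_mul_left _ (by omega)
      have h14 : 0 < N := by exact_mod_cast hN1
      have h15 : U * N + U * N < 50 * (U + 1) * N := by nlinarith
      omega
  exact main q le_rfl

/-- the graph of the edges of colour `i` -/
def EJA_cl {V : Type} (G : SimpleGraph V) (c : Sym2 V → ℕ) (i : ℕ) : SimpleGraph V where
  Adj v w := G.Adj v w ∧ c s(v, w) = i
  symm := ⟨fun v w h => ⟨h.1.symm, by rw [Sym2.eq_swap]; exact h.2⟩⟩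
  loopless := ⟨fun v h => G.loopless.irrefl v h.1⟩

/-- the number of vertices covered by a colour class -/
theorem EJA_cov (hPTN : PTN_stmt) {G : SimpleGraph V} {D : ℕ} {c : Sym2 V → ℕ} (hc : PEC G D c)
    (i : ℕ) (P : Finset V) (hP : ∀ v w, G.Adj v w → v ∈ P → w ∈ P) :
    (P.filter fun x => ptn G c i x ≠ x).card =
      2 * ((EJA_ed G P).filter fun e => c e = i).card := by
  have h1 := EJA_ep (EJA_cl G c i) P
  have h2 : EJA_ed (EJA_cl G c i) P = (EJA_ed G P).filter fun e => c e = i := by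
    ext e
    induction e using Sym2.ind with
    | _ v w =>
      rw [EJA_mk, Finset.mem_filter, EJA_mk]
      show (G.Adj v w ∧ c s(v, w) = i) ∧ _ ↔ _
      tauto
  rw [← h2, ← h1]
  unfold ep
  rw [Finset.card_filter]
  refine Finset.sum_congr rfl fun v hv => ?_
  obtain ⟨-, hp1, hp2⟩ := hPTN V G D c hc i
  by_cases h : has G c v i
  · rw [if_pos ((hp2 v).2 h)]
    obtain ⟨w, hvw, hcw⟩ := h
    symm
    unfold dgs
    rw [Finset.card_eq_one]
    refine ⟨w, ?_⟩
    ext u
    rw [Finset.mem_filter, Finset.mem_singleton]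
    constructor
    · rintro ⟨_, h3, h4⟩
      exact hc.2 v u w h3 hvw (h4.trans hcw.symm)
    · rintro rfl
      exact ⟨hP v u hvw hv, hvw, hcw⟩
  · rw [if_neg (fun h3 => h ((hp2 v).1 h3))]
    symm
    unfold dgs
    rw [Finset.card_eq_zero]
    apply Finset.eq_empty_of_forall_notMem
    intro u hu
    rw [Finset.mem_filter] at hu
    exact h ⟨u, hu.2.1, hu.2.2⟩

/-- the colouring given by the single edges and the items -/
theorem EJA_col (W : SimpleGraph V) (A X : Finset V) (q : ℕ)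
    (wX : ∀ v w, W.Adj v w → v ∈ X ∧ w ∈ X ∧ (v ∈ A ↔ w ∈ A)) (sg : ℕ → Finset (Sym2 V)) (n : ℕ)
    (f g : Fin n → Sym2 V) (a : Fin n → ℕ) (hf : Function.Injective f)
    (hg : Function.Injective g)
    (hfm : ∀ e, (∃ j, f j = e) ↔ e ∈ EJA_ed W (X ∩ A) ∧ ∀ i < q, e ∉ sg i)
    (hgm : ∀ e, (∃ j, g j = e) ↔ e ∈ EJA_ed W (X \ A) ∧ ∀ i < q, e ∉ sg i)
    (dj : ∀ i < q, ∀ e ∈ sg i, ∀ e' ∈ sg i, ∀ v, v ∈ e → v ∈ e' → e = e')
    (dis : ∀ i < q, ∀ j < q, i ≠ j → Disjoint (sg i) (sg j)) (ha : ∀ j, a j < q)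
    (hcf : ∀ j j', j ≠ j' → (∃ v, (v ∈ f j ∨ v ∈ g j) ∧ (v ∈ f j' ∨ v ∈ g j')) → a j ≠ a j')
    (hbd : ∀ j, ∀ v, (v ∈ f j ∨ v ∈ g j) → ∀ e ∈ sg (a j), v ∉ e) :
    ∃ c : Sym2 V → ℕ, PEC W q c ∧ ∀ e ∈ W.edgeSet, ∀ i < q,
      (c e = i ↔ (e ∈ sg i ∨ ∃ j, a j = i ∧ (f j = e ∨ g j = e))) := by
  have hfg : ∀ j j' v, v ∈ f j → v ∈ g j' → False := by
    intro j j' v h1 h2
    have h3 := EJA_mem.1 ((hfm _).1 ⟨j, rfl⟩).1
    have h4 := EJA_mem.1 ((hgm _).1 ⟨j', rfl⟩).1
    have h5 := h3.2 v h1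
    have h6 := h4.2 v h2
    rw [Finset.mem_inter] at h5
    rw [Finset.mem_sdiff] at h6
    exact h6.2 h5.2
  have hfe : ∀ j j', f j ≠ g j' := by
    intro j j' h
    obtain ⟨v, hv⟩ := EJA_ne (f j)
    exact hfg j j' v hv (h ▸ hv)
  set Col : Sym2 V → ℕ → Prop := fun e i => e ∈ sg i ∨ ∃ j, a j = i ∧ (f j = e ∨ g j = e)
    with hCol
  have hex : ∀ e ∈ W.edgeSet, ∃ i < q, Col e i := by
    intro e he
    by_cases hs : ∃ i < q, e ∈ sg i
    · obtain ⟨i, hi, h⟩ := hs
      exact ⟨i, hi, Or.inl h⟩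
    · have hs' : ∀ i < q, e ∉ sg i := fun i hi h => hs ⟨i, hi, h⟩
      induction e using Sym2.ind with
      | _ v w =>
        have h1 := wX v w he
        by_cases hv : v ∈ A
        · have h2 : s(v, w) ∈ EJA_ed W (X ∩ A) := by
            rw [EJA_mk, Finset.mem_inter, Finset.mem_inter]
            exact ⟨he, ⟨h1.1, hv⟩, h1.2.1, h1.2.2.1 hv⟩
          obtain ⟨j, hj⟩ := (hfm _).2 ⟨h2, hs'⟩
          exact ⟨a j, ha j, Or.inr ⟨j, rfl, Or.inl hj⟩⟩
        · have h2 : s(v, w) ∈ EJA_ed W (X \ A) := by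
            rw [EJA_mk, Finset.mem_sdiff, Finset.mem_sdiff]
            exact ⟨he, ⟨h1.1, hv⟩, h1.2.1, fun h => hv (h1.2.2.2 h)⟩
          obtain ⟨j, hj⟩ := (hgm _).2 ⟨h2, hs'⟩
          exact ⟨a j, ha j, Or.inr ⟨j, rfl, Or.inr hj⟩⟩
  have hun : ∀ e i i', i < q → i' < q → Col e i → Col e i' → i = i' := by
    intro e i i' hi hi' h h'
    rcases h with h | ⟨j, hj, h⟩
    · rcases h' with h' | ⟨j', hj', h'⟩
      · by_contra hne
        exact Finset.disjoint_left.1 (dis i hi i' hi' hne) h h'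
      · exfalso
        rcases h' with h' | h'
        · exact ((hfm _).1 ⟨j', h'⟩).2 i hi h
        · exact ((hgm _).1 ⟨j', h'⟩).2 i hi h
    · rcases h' with h' | ⟨j', hj', h'⟩
      · exfalso
        rcases h with h | h
        · exact ((hfm _).1 ⟨j, h⟩).2 i' hi' h'
        · exact ((hgm _).1 ⟨j, h⟩).2 i' hi' h'
      · have : j = j' := by
          rcases h with h | h <;> rcases h' with h' | h'
          · exact hf (h.trans h'.symm)
          · exact (hfe _ _ (h.trans h'.symm)).elim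
          · exact (hfe _ _ (h'.trans h.symm)).elim
          · exact hg (h.trans h'.symm)
        rw [← hj, ← hj', this]
  set c : Sym2 V → ℕ := fun e => if h : ∃ i < q, Col e i then h.choose else 0 with hc
  have hcs : ∀ e ∈ W.edgeSet, c e < q ∧ Col e (c e) := by
    intro e he
    have h := hex e he
    rw [hc]
    simp only
    rw [dif_pos h]
    exact h.choose_spec
  have hci : ∀ e ∈ W.edgeSet, ∀ i < q, (c e = i ↔ Col e i) := by
    intro e he i hi
    constructor
    · rintro rfl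
      exact (hcs e he).2
    · intro h
      exact hun e _ _ (hcs e he).1 hi (hcs e he).2 h
  refine ⟨c, ⟨fun v w h => (hcs _ h).1, ?_⟩, hci⟩
  intro v w w' h h' hcc
  have h1 : Col s(v, w) (c s(v, w)) := (hcs _ h).2
  have h2 : Col s(v, w') (c s(v, w)) := by
    rw [hcc]
    exact (hcs _ h').2
  have hq : c s(v, w) < q := (hcs _ h).1
  generalize c s(v, w) = i at h1 h2 hq
  have hv : v ∈ s(v, w) := Sym2.mem_mk_left _ _
  have hv' : v ∈ s(v, w') := Sym2.mem_mk_left _ _
  have key : s(v, w) = s(v, w') := by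
    rcases h1 with h1 | ⟨j, hj, h1⟩
    · rcases h2 with h2 | ⟨j', hj', h2⟩
      · exact dj i hq _ h1 _ h2 v hv hv'
      · exfalso
        refine hbd j' v ?_ _ (hj' ▸ h1) hv
        rcases h2 with h2 | h2
        · exact Or.inl (h2 ▸ hv')
        · exact Or.inr (h2 ▸ hv')
    · rcases h2 with h2 | ⟨j', hj', h2⟩
      · exfalso
        refine hbd j v ?_ _ (hj ▸ h2) hv'
        rcases h1 with h1 | h1
        · exact Or.inl (h1 ▸ hv)
        · exact Or.inr (h1 ▸ hv)
      · have hjj : j = j' := by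
          by_contra hne
          refine hcf j j' hne ⟨v, ?_, ?_⟩ (hj.trans hj'.symm)
          · rcases h1 with h1 | h1
            · exact Or.inl (h1 ▸ hv)
            · exact Or.inr (h1 ▸ hv)
          · rcases h2 with h2 | h2
            · exact Or.inl (h2 ▸ hv')
            · exact Or.inr (h2 ▸ hv')
        subst hjj
        rcases h1 with h1 | h1 <;> rcases h2 with h2 | h2
        · rw [← h1, ← h2]
        · exact (hfg j j v (h1 ▸ hv) (h2 ▸ hv')).elim
        · exact (hfg j j v (h2 ▸ hv') (h1 ▸ hv)).elim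
        · rw [← h1, ← h2]
  rcases Sym2.eq_iff.1 key with h3 | h3
  · exact h3.2
  · exact h3.2.trans h3.1

/-- the number of items at a vertex -/
theorem EJA_it {n : ℕ} (W : SimpleGraph V) (f : Fin n → Sym2 V) (hf : Function.Injective f)
    (hfW : ∀ j, f j ∈ W.edgeSet) (v : V) :
    (Finset.univ.filter fun j => v ∈ f j).card ≤ dg W v := by
  refine le_trans ?_ (EJA_deg W (Finset.univ.filter fun e => e ∈ W.edgeSet)
    (fun e he => (Finset.mem_filter.1 he).2) v)
  refine Finset.card_le_card_of_injOn f ?_ hf.injOn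
  intro j hj
  rw [Finset.mem_coe, Finset.mem_filter] at hj
  rw [Finset.mem_coe, Finset.mem_filter, Finset.mem_filter]
  exact ⟨⟨Finset.mem_univ _, hfW j⟩, hj.2⟩

/-- the number of colours with a single edge at a vertex -/
theorem EJA_sv (W : SimpleGraph V) (q : ℕ) (sg : ℕ → Finset (Sym2 V))
    (hs : ∀ i < q, ∀ e ∈ sg i, e ∈ W.edgeSet)
    (dis : ∀ i < q, ∀ j < q, i ≠ j → Disjoint (sg i) (sg j)) (v : V) :
    ((Finset.range q).filter fun i => ∃ e ∈ sg i, v ∈ e).card ≤ dg W v := by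
  refine le_trans ?_ (EJA_deg W (Finset.univ.filter fun e => e ∈ W.edgeSet)
    (fun e he => (Finset.mem_filter.1 he).2) v)
  have hφ : ∀ i, (∃ e ∈ sg i, v ∈ e) →
      (if h : ∃ e ∈ sg i, v ∈ e then h.choose else s(v, v)) ∈ sg i ∧
      v ∈ (if h : ∃ e ∈ sg i, v ∈ e then h.choose else s(v, v)) := by
    intro i hi
    rw [dif_pos hi]
    exact hi.choose_spec
  refine Finset.card_le_card_of_injOn
    (fun i => if h : ∃ e ∈ sg i, v ∈ e then h.choose else s(v, v)) ?_ ?_
  · intro i hi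
    rw [Finset.mem_coe, Finset.mem_filter, Finset.mem_range] at hi
    have := hφ i hi.2
    rw [Finset.mem_coe, Finset.mem_filter, Finset.mem_filter]
    exact ⟨⟨Finset.mem_univ _, hs i hi.1 _ this.1⟩, this.2⟩
  · intro i hi j hj hij
    rw [Finset.mem_coe, Finset.mem_filter, Finset.mem_range] at hi hj
    by_contra hne
    have h1 := (hφ i hi.2).1
    have h2 := (hφ j hj.2).1
    simp only at hij
    rw [← hij] at h2
    exact Finset.disjoint_left.1 (dis i hi.1 j hj.1 hne) h1 h2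

omit [Fintype V] in
theorem EJA_le {α : Type} {S : Finset α} {p q : α → Prop} (i1 : DecidablePred p)
    (i2 : DecidablePred q) (h : ∀ x ∈ S, p x → q x) :
    (@Finset.filter _ p i1 S).card ≤ (@Finset.filter _ q i2 S).card := by
  apply Finset.card_le_card
  intro x hx
  rw [Finset.mem_filter] at hx ⊢
  exact ⟨hx.1, h x hx.1 hx.2⟩

theorem EJA_fin (q : ℕ) (p : ℕ → Prop) (i1 : DecidablePred fun i : Fin q => p i)
    (i2 : DecidablePred p) :
    (@Finset.filter _ (fun i : Fin q => p i) i1 Finset.univ).card ≤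
      (@Finset.filter _ p i2 (Finset.range q)).card := by
  refine Finset.card_le_card_of_injOn (fun i : Fin q => (i : ℕ)) ?_ ?_
  · intro i hi
    have hi' := (@Finset.mem_filter _ _ i1 _ _).1 (Finset.mem_coe.1 hi)
    exact Finset.mem_coe.2 ((@Finset.mem_filter _ _ i2 _ _).2 ⟨Finset.mem_range.2 i.2, hi'.2⟩)
  · intro i _ j _ hij
    exact Fin.ext hij

/-- the vertices of an item -/
def EJA_vi {n : ℕ} (f g : Fin n → Sym2 V) (j : Fin n) : Finset V :=
  Finset.univ.filter fun v => v ∈ f j ∨ v ∈ g j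

theorem EJA_vi_card {n : ℕ} (f g : Fin n → Sym2 V) (j : Fin n) : (EJA_vi f g j).card ≤ 4 := by
  have h1 : EJA_vi f g j ⊆ (Finset.univ.filter fun v => v ∈ f j) ∪
      (Finset.univ.filter fun v => v ∈ g j) := by
    intro v hv
    unfold EJA_vi at hv
    rw [Finset.mem_filter] at hv
    rw [Finset.mem_union, Finset.mem_filter, Finset.mem_filter]
    rcases hv.2 with h | h
    · exact Or.inl ⟨Finset.mem_univ _, h⟩
    · exact Or.inr ⟨Finset.mem_univ _, h⟩
  have h2 := (Finset.card_le_card h1).trans (Finset.card_union_le _ _)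
  have h3 := EJA_vs1 (f j)
  have h4 := EJA_vs1 (g j)
  omega

/-- a union bound over the vertices of an item -/
theorem EJA_ub {n : ℕ} {α : Type} (f g : Fin n → Sym2 V) (j : Fin n) (S : Finset α)
    (p : α → V → Prop) (D : ℕ) (h : ∀ v, (v ∈ f j ∨ v ∈ g j) → (S.filter fun x => p x v).card ≤ D)
    (i1 : DecidablePred fun x => ∃ v, (v ∈ f j ∨ v ∈ g j) ∧ p x v) :
    (@Finset.filter _ (fun x => ∃ v, (v ∈ f j ∨ v ∈ g j) ∧ p x v) i1 S).card ≤ 4 * D := by
  have h1 : (@Finset.filter _ (fun x => ∃ v, (v ∈ f j ∨ v ∈ g j) ∧ p x v) i1 S) ⊆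
      (EJA_vi f g j).biUnion fun v => S.filter fun x => p x v := by
    intro x hx
    rw [Finset.mem_filter] at hx
    obtain ⟨hxS, v, hv, hp⟩ := hx
    exact Finset.mem_biUnion.2 ⟨v, Finset.mem_filter.2 ⟨Finset.mem_univ _, hv⟩,
      Finset.mem_filter.2 ⟨hxS, hp⟩⟩
  refine (Finset.card_le_card h1).trans (Finset.card_biUnion_le.trans ?_)
  calc ∑ v ∈ EJA_vi f g j, (S.filter fun x => p x v).card ≤ ∑ _v ∈ EJA_vi f g j, D :=
        Finset.sum_le_sum fun v hv => h v (Finset.mem_filter.1 hv).2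
    _ = (EJA_vi f g j).card * D := by rw [Finset.sum_const, smul_eq_mul]
    _ ≤ 4 * D := Nat.mul_le_mul_right _ (EJA_vi_card f g j)

omit [Fintype V] in
theorem EJA_or {α : Type} {S : Finset α} {p q : α → Prop} (i1 : DecidablePred fun x => p x ∨ q x)
    (i2 : DecidablePred p) (i3 : DecidablePred q) {D : ℕ}
    (h2 : (@Finset.filter _ p i2 S).card ≤ D) (h3 : (@Finset.filter _ q i3 S).card ≤ D) :
    (@Finset.filter _ (fun x => p x ∨ q x) i1 S).card ≤ 2 * D := by
  have h1 : (@Finset.filter _ (fun x => p x ∨ q x) i1 S) ⊆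
      (@Finset.filter _ p i2 S) ∪ (@Finset.filter _ q i3 S) := by
    intro y hy
    rw [Finset.mem_filter] at hy
    rw [Finset.mem_union, Finset.mem_filter, Finset.mem_filter]
    rcases hy.2 with h | h
    · exact Or.inl ⟨hy.1, h⟩
    · exact Or.inr ⟨hy.1, h⟩
  have h4 := (Finset.card_le_card h1).trans (Finset.card_union_le _ _)
  omega

/-- the greedy assignment of the items -/
theorem EJA_gra (hGRA : GRA_stmt) (n q D cp load o : ℕ) (hq : 0 < q) (f g : Fin n → Sym2 V)
    (H : ℕ → Finset V) (sg : ℕ → Finset (Sym2 V)) (pt : ℕ → V → V)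
    (hf : ∀ v, (Finset.univ.filter fun j => v ∈ f j).card ≤ D)
    (hg : ∀ v, (Finset.univ.filter fun j => v ∈ g j).card ≤ D)
    (hH : ∀ j v, (v ∈ f j ∨ v ∈ g j) → ((Finset.range q).filter fun i => v ∈ H i).card ≤ D)
    (hs : ∀ v, ((Finset.range q).filter fun i => ∃ e ∈ sg i, v ∈ e).card ≤ D)
    (hpt : ∀ v u, u ≠ v → ((Finset.range q).filter fun i => pt i v = u).card ≤ 1)
    (hn : n ≤ (q / 2 + 1) * cp) (hl : 0 < load) (ho : 4 * n ≤ o * load)
    (hbig : 16 * D + (q / 2 + 1) + 4 * o < q) :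
    ∃ a : Fin n → ℕ, (∀ j, a j < q) ∧
      (∀ j j', j ≠ j' → (∃ v, (v ∈ f j ∨ v ∈ g j) ∧ (v ∈ f j' ∨ v ∈ g j')) → a j ≠ a j') ∧
      (∀ j v, (v ∈ f j ∨ v ∈ g j) → v ∉ H (a j) ∧ ∀ e ∈ sg (a j), v ∉ e) ∧
      (∀ i, (Finset.univ.filter fun j => a j = i).card ≤ cp) ∧
      ∀ u, (Finset.univ.filter fun j => ∃ v, (v ∈ f j ∨ v ∈ g j) ∧
        (pt (a j) v = u ∧ u ≠ v)).card ≤ load := by
  have hne : Nonempty (Fin q) := ⟨⟨0, hq⟩⟩
  obtain ⟨a, -, h2, h3, h4, h5⟩ := hGRA (Fin n) (Fin q) V Finset.univ Finset.univ (fun _ => 0)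
    (fun j j' => ∃ v, (v ∈ f j ∨ v ∈ g j) ∧ (v ∈ f j' ∨ v ∈ g j'))
    (fun j i => ∃ v, (v ∈ f j ∨ v ∈ g j) ∧ (v ∈ H i ∨ ∃ e ∈ sg i, v ∈ e))
    (fun j i => Finset.univ.filter fun u => ∃ v, (v ∈ f j ∨ v ∈ g j) ∧ (pt i v = u ∧ u ≠ v))
    (fun _ => cp) (fun _ => q / 2 + 1) (8 * D) (8 * D) 4 4 load o
    (by
      intro x _
      have h7 := EJA_ub f g x Finset.univ (fun y v => v ∈ f y ∨ v ∈ g y) (2 * D)
        (fun v _ => EJA_or _ _ _ (hf v) (hg v)) (Classical.decPred _)
      rw [← mul_assoc] at h7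
      refine (EJA_le _ _ ?_).trans h7
      intro y _ hy
      rcases hy.2 with h | ⟨v, h, h'⟩
      · exact h
      · exact ⟨v, h', h⟩)
    (by
      intro x _
      have h7 := EJA_ub f g x (Finset.univ : Finset (Fin q))
        (fun i v => v ∈ H i ∨ ∃ e ∈ sg i, v ∈ e) (2 * D) (by
          intro v hv
          refine (EJA_fin q (fun i => v ∈ H i ∨ ∃ e ∈ sg i, v ∈ e) _
            (Classical.decPred _)).trans ?_
          exact EJA_or _ _ _ (hH x v hv) (hs v)) (Classical.decPred _)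
      rw [← mul_assoc] at h7
      refine (EJA_le _ _ ?_).trans h7
      intro y _ hy
      exact hy)
    (by
      intro τ
      refine le_trans ?_ hn
      refine (Finset.card_filter_le _ _).trans ?_
      rw [Finset.card_univ, Fintype.card_fin])
    (by
      intro x _ i _
      have h6 : (Finset.univ.filter fun u => ∃ v, (v ∈ f x ∨ v ∈ g x) ∧ (pt i v = u ∧ u ≠ v)) ⊆
          (EJA_vi f g x).image (pt i) := by
        intro u hu
        rw [Finset.mem_filter] at hu
        obtain ⟨v, hv, hvu, _⟩ := hu.2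
        exact Finset.mem_image.2 ⟨v, Finset.mem_filter.2 ⟨Finset.mem_univ _, hv⟩, hvu⟩
      exact (Finset.card_le_card h6).trans (Finset.card_image_le.trans (EJA_vi_card f g x)))
    (by
      intro x _ u
      have h7 := EJA_ub f g x (Finset.univ : Finset (Fin q))
        (fun i v => pt i v = u ∧ u ≠ v) 1 (by
          intro v _
          refine (EJA_fin q (fun i => pt i v = u ∧ u ≠ v) _ (Classical.decPred _)).trans ?_
          by_cases huv : u = v
          · have : (@Finset.filter _ (fun i => pt i v = u ∧ u ≠ v) (Classical.decPred _)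
                (Finset.range q)) = ∅ := by
              apply Finset.eq_empty_of_forall_notMem
              intro i hi
              exact ((@Finset.mem_filter _ _ (Classical.decPred _) _ _).1 hi).2.2 huv
            rw [this, Finset.card_empty]
            exact zero_le_one
          · exact (EJA_le _ _ fun i _ hi => hi.1).trans (hpt v u huv)) (Classical.decPred _)
      rw [mul_one] at h7
      refine (EJA_le _ _ ?_).trans h7
      intro i _ hi
      exact (Finset.mem_filter.1 hi).2)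
    hl
    (by
      rw [Finset.card_univ, Fintype.card_fin]
      exact ho)
    (by
      intro x _
      rw [Finset.card_univ, Fintype.card_fin]
      omega)
  refine ⟨fun j => (a j : ℕ), fun j => (a j).2, ?_, ?_, ?_, ?_⟩
  · intro j j' hne h hjj
    exact h2 j (Finset.mem_univ _) j' (Finset.mem_univ _) hne h (Fin.ext hjj)
  · intro j v hv
    have h6 := h3 j (Finset.mem_univ _)
    refine ⟨fun h => h6 ⟨v, hv, Or.inl h⟩, fun e he hve => h6 ⟨v, hv, Or.inr ⟨e, he, hve⟩⟩⟩
  · intro i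
    by_cases hi : i < q
    · exact (EJA_le _ _ fun j _ hj => ⟨Fin.ext hj, rfl⟩).trans (h4 ⟨i, hi⟩ (Finset.mem_univ _) 0)
    · have : (Finset.univ.filter fun j => ((a j : Fin q) : ℕ) = i) = ∅ := by
        apply Finset.eq_empty_of_forall_notMem
        intro j hj
        have := (a j).2
        have := (Finset.mem_filter.1 hj).2
        omega
      rw [this, Finset.card_empty]
      exact Nat.zero_le _
  · intro u
    refine (EJA_le _ _ fun j _ hj => ?_).trans (h5 u)
    exact Finset.mem_filter.2 ⟨Finset.mem_univ _, hj⟩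

omit [Fintype V] in
/-- the number of edges of one colour on one side -/
theorem EJA_cnt {n : ℕ} (F T : Finset (Sym2 V)) (f : Fin n → Sym2 V) (hf : Function.Injective f)
    (a : Fin n → ℕ) (i : ℕ) (c : Sym2 V → ℕ)
    (h1 : ∀ e ∈ F, (c e = i ↔ e ∈ T ∨ ∃ j, a j = i ∧ f j = e)) (h2 : ∀ j, f j ∈ F)
    (h3 : ∀ j, a j = i → f j ∉ T) :
    (F.filter fun e => c e = i).card = (F ∩ T).card +
      (Finset.univ.filter fun j => a j = i).card := by
  have e1 : (F.filter fun e => c e = i) = (F ∩ T) ∪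
      (Finset.univ.filter fun j => a j = i).image f := by
    ext e
    rw [Finset.mem_filter, Finset.mem_union, Finset.mem_inter, Finset.mem_image]
    constructor
    · rintro ⟨he, hc⟩
      rcases (h1 e he).1 hc with h | ⟨j, hj, h⟩
      · exact Or.inl ⟨he, h⟩
      · exact Or.inr ⟨j, Finset.mem_filter.2 ⟨Finset.mem_univ _, hj⟩, h⟩
    · rintro (⟨he, h⟩ | ⟨j, hj, h⟩)
      · exact ⟨he, (h1 e he).2 (Or.inl h)⟩
      · rw [Finset.mem_filter] at hj
        have he : e ∈ F := h ▸ h2 j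
        exact ⟨he, (h1 e he).2 (Or.inr ⟨j, hj.2, h⟩)⟩
  rw [e1, Finset.card_union_of_disjoint, Finset.card_image_of_injective _ hf]
  rw [Finset.disjoint_left]
  intro e he he'
  obtain ⟨j, hj, rfl⟩ := Finset.mem_image.1 he'
  exact h3 j (Finset.mem_filter.1 hj).2 (Finset.mem_inter.1 he).2

omit [Fintype V] in
theorem EJA_part (P Hi : Finset V) (E : V → V) (hE : ∀ x ∈ Hi, E x = x) :
    (P \ Hi).card = (P.filter fun x => x ∉ Hi ∧ E x = x).card +
      (P.filter fun x => E x ≠ x).card := by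
  rw [← Finset.card_filter_add_card_filter_not (s := P \ Hi) (fun x => E x = x)]
  congr 2
  · ext x
    simp only [Finset.mem_filter, Finset.mem_sdiff]
    tauto
  · ext x
    simp only [Finset.mem_filter, Finset.mem_sdiff]
    constructor
    · rintro ⟨⟨h1, _⟩, h3⟩
      exact ⟨h1, h3⟩
    · rintro ⟨h1, h3⟩
      exact ⟨⟨h1, fun h => h3 (hE x h)⟩, h3⟩

omit [Fintype V] in
/-- the numbers of single edges -/
theorem EJA_num (X A Hi : Finset V) (U : ℕ) (h1 : Hi.card ≤ U) (h2 : Even (X \ Hi).card)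
    (h3 : |((X ∩ A).card : ℝ) - (X \ A).card| ≤ U) :
    (((X ∩ A) \ Hi).card - ((X \ A) \ Hi).card) / 2 * 2 + ((X \ A) \ Hi).card =
      (((X \ A) \ Hi).card - ((X ∩ A) \ Hi).card) / 2 * 2 + ((X ∩ A) \ Hi).card ∧
    (((X ∩ A) \ Hi).card - ((X \ A) \ Hi).card) / 2 +
      (((X \ A) \ Hi).card - ((X ∩ A) \ Hi).card) / 2 ≤ U := by
  have e1 : (X \ Hi).card = ((X ∩ A) \ Hi).card + ((X \ A) \ Hi).card := by
    rw [← Finset.card_union_of_disjoint]
    · congr 1
      ext x
      simp only [Finset.mem_sdiff, Finset.mem_union, Finset.mem_inter]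
      tauto
    · rw [Finset.disjoint_left]
      intro x hx hx'
      simp only [Finset.mem_sdiff, Finset.mem_inter] at hx hx'
      tauto
  have e2 := Finset.card_sdiff_add_card_inter (X ∩ A) Hi
  have e3 := Finset.card_sdiff_add_card_inter (X \ A) Hi
  have e4 : ((X ∩ A) ∩ Hi).card ≤ Hi.card := Finset.card_le_card Finset.inter_subset_right
  have e5 : ((X \ A) ∩ Hi).card ≤ Hi.card := Finset.card_le_card Finset.inter_subset_right
  obtain ⟨h4, h5⟩ := abs_le.1 h3
  have h6 : (X ∩ A).card ≤ (X \ A).card + U := by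
    have : ((X ∩ A).card : ℝ) ≤ (X \ A).card + U := by linarith
    exact_mod_cast this
  have h7 : (X \ A).card ≤ (X ∩ A).card + U := by
    have : ((X \ A).card : ℝ) ≤ (X ∩ A).card + U := by linarith
    exact_mod_cast this
  rw [e1] at h2
  obtain ⟨k, hk⟩ := h2
  omega

/-- the constants -/
theorem EJA_consts (η θ : ℝ) (N q n D U : ℕ) (hη : 0 < η) (hθ0 : 0 < θ) (hθ1 : θ ≤ η / 64)
    (hθ2 : θ * (32 * (16 + 64 / η)) ≤ 1) (hN1 : (200 : ℝ) ≤ N) (hN2 : 8 ≤ η * N)
    (hN3 : 8 + 4 * (U : ℝ) ≤ η * N) (hq : (N : ℝ) / 8 ≤ q) (hD : (D : ℝ) ≤ θ * N)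
    (hn : 2 * n ≤ N * D) : ∃ cp load o : ℕ, n ≤ (q / 2 + 1) * cp ∧ 0 < load ∧
      4 * n ≤ o * load ∧ 16 * D + (q / 2 + 1) + 4 * o < q ∧
      2 * (U : ℝ) + 4 * cp ≤ η * N ∧ θ * N + η / 4 * N + load ≤ η * N := by
  have hN0 : (0 : ℝ) < N := by linarith
  have hq2 : (q : ℝ) / 2 ≤ ((q / 2 + 1 : ℕ) : ℝ) := by
    have : q ≤ 2 * (q / 2 + 1) := by omega
    have h1 : (q : ℝ) ≤ 2 * ((q / 2 + 1 : ℕ) : ℝ) := by exact_mod_cast this
    linarith
  have hq3 : ((q / 2 + 1 : ℕ) : ℝ) ≤ (q : ℝ) / 2 + 1 := by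
    have : 2 * (q / 2) ≤ q := by omega
    have h1 : 2 * ((q / 2 : ℕ) : ℝ) ≤ (q : ℝ) := by exact_mod_cast this
    push_cast
    linarith
  have hn' : (n : ℝ) ≤ θ * N ^ 2 / 2 := by
    have h1 : 2 * (n : ℝ) ≤ N * D := by exact_mod_cast hn
    have h2 : (N : ℝ) * D ≤ N * (θ * N) := mul_le_mul_of_nonneg_left hD hN0.le
    nlinarith
  have hc1 := Nat.le_ceil (8 * θ * N)
  have hc2 := Nat.ceil_lt_add_one (show 0 ≤ 8 * θ * N by positivity)
  have hl1 := Nat.floor_le (show 0 ≤ η * N / 4 by positivity)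
  have hl2 := Nat.lt_floor_add_one (η * N / 4)
  have ho1 := Nat.le_ceil (16 * θ * N / η)
  have ho2 := Nat.ceil_lt_add_one (show 0 ≤ 16 * θ * N / η by positivity)
  have hl3 : η * N / 8 ≤ (⌊η * N / 4⌋₊ : ℝ) := by linarith
  refine ⟨⌈8 * θ * N⌉₊, ⌊η * N / 4⌋₊, ⌈16 * θ * N / η⌉₊, ?_, ?_, ?_, ?_, ?_, ?_⟩
  · have h1 : (n : ℝ) ≤ ((q / 2 + 1 : ℕ) : ℝ) * (⌈8 * θ * N⌉₊ : ℝ) := by
      calc (n : ℝ) ≤ θ * N ^ 2 / 2 := hn'
        _ = (N / 16) * (8 * θ * N) := by ring
        _ ≤ ((q / 2 + 1 : ℕ) : ℝ) * (⌈8 * θ * N⌉₊ : ℝ) := by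
          apply mul_le_mul _ hc1 (by positivity) (by positivity)
          linarith
    exact_mod_cast h1
  · have : (0 : ℝ) < (⌊η * N / 4⌋₊ : ℝ) := by linarith
    exact_mod_cast this
  · have h1 : 4 * (n : ℝ) ≤ (⌈16 * θ * N / η⌉₊ : ℝ) * (⌊η * N / 4⌋₊ : ℝ) := by
      calc 4 * (n : ℝ) ≤ 2 * θ * N ^ 2 := by linarith
        _ = (16 * θ * N / η) * (η * N / 8) := by
          field_simp
          ring
        _ ≤ _ := by
          apply mul_le_mul ho1 hl3 (by positivity) (by positivity)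
    exact_mod_cast h1
  · have h1 : 16 * (D : ℝ) + ((q / 2 + 1 : ℕ) : ℝ) + 4 * (⌈16 * θ * N / η⌉₊ : ℝ) < q := by
      have h2 : 4 * (16 * θ * N / η) = θ * (64 / η) * N := by
        field_simp
        ring
      have h3 : θ * (16 + 64 / η) * N ≤ N / 32 := by
        have h4 : θ * (16 + 64 / η) ≤ 1 / 32 := by linarith
        calc θ * (16 + 64 / η) * N ≤ 1 / 32 * N := mul_le_mul_of_nonneg_right h4 hN0.le
          _ = N / 32 := by ring
      have h5 : θ * (16 + 64 / η) * N = 16 * (θ * N) + θ * (64 / η) * N := by ring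
      linarith
    exact_mod_cast h1
  · have h1 : 8 * θ * N ≤ η * N / 8 := by
      have : θ * N ≤ η / 64 * N := mul_le_mul_of_nonneg_right hθ1 hN0.le
      linarith
    linarith
  · have : θ * N ≤ η / 64 * N := mul_le_mul_of_nonneg_right hθ1 hN0.le
    nlinarith

theorem EJA_mono {G G' : SimpleGraph V} (h : G ≤ G') (P : Finset V) : EJA_ed G P ⊆ EJA_ed G' P := by
  intro e he
  induction e using Sym2.ind with
  | _ v w =>
    rw [EJA_mk] at he ⊢
    exact ⟨h he.1, he.2⟩

theorem EJA_disj (G : SimpleGraph V) (X A : Finset V) :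
    Disjoint (EJA_ed G (X ∩ A)) (EJA_ed G (X \ A)) := by
  rw [Finset.disjoint_left]
  intro e he he'
  obtain ⟨v, hv⟩ := EJA_ne e
  have h1 := (EJA_mem.1 he).2 v hv
  have h2 := (EJA_mem.1 he').2 v hv
  rw [Finset.mem_inter] at h1
  rw [Finset.mem_sdiff] at h2
  exact h2.2 h1.2

omit [Fintype V] in
theorem EJA_un (F : Finset (Sym2 V)) (q : ℕ) (sg : ℕ → Finset (Sym2 V)) (p : ℕ → ℕ)
    (dis : ∀ i < q, ∀ j < q, i ≠ j → Disjoint (sg i) (sg j))
    (h : ∀ i < q, (F ∩ sg i).card = p i) :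
    (F \ (Finset.range q).biUnion sg).card + ∑ i ∈ Finset.range q, p i = F.card := by
  rw [← Finset.card_sdiff_add_card_inter F ((Finset.range q).biUnion sg)]
  congr 1
  rw [Finset.inter_biUnion, Finset.card_biUnion]
  · exact Finset.sum_congr rfl fun i hi => (h i (Finset.mem_range.1 hi)).symm
  · intro i hi j hj hij
    exact Disjoint.mono Finset.inter_subset_right Finset.inter_subset_right
      (dis i (Finset.mem_range.1 hi) j (Finset.mem_range.1 hj) hij)

theorem EJA (hPTN : PTN_stmt) (hSCN : SCN_stmt) (hGRA : GRA_stmt) (hBID : BID_stmt) :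
    EJA_stmt := by
  intro ε ζ η hε hζ hη
  have hK0 : (0 : ℝ) < 16 + 64 / η := by positivity
  have hθpos : 0 < min (η / 64) (1 / (32 * (16 + 64 / η))) := by positivity
  refine ⟨min (η / 64) (1 / (32 * (16 + 64 / η))), hθpos, ?_⟩
  have hθ1 : min (η / 64) (1 / (32 * (16 + 64 / η))) ≤ η / 64 := min_le_left _ _
  have hθ2 : min (η / 64) (1 / (32 * (16 + 64 / η))) * (32 * (16 + 64 / η)) ≤ 1 := by
    have h1 := min_le_right (η / 64) (1 / (32 * (16 + 64 / η)))
    rwa [le_div_iff₀ (by positivity)] at h1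
  generalize min (η / 64) (1 / (32 * (16 + 64 / η))) = θ at hθpos hθ1 hθ2
  intro U U3
  refine ⟨⌈200 + 8 / η + (8 + 4 * U) / η + U3 * (3 + 4 / (η / 4)) + 1⌉₊, ?_⟩
  intro V _ W C E0 R A X q f H h c hN0 hM hc
  have hNr : 200 + 8 / η + (8 + 4 * U) / η + U3 * (3 + 4 / (η / 4)) + 1 ≤
      (Fintype.card V : ℝ) := (Nat.le_ceil _).trans (by exact_mod_cast hN0)
  have t1 : 0 ≤ 8 / η := by positivity
  have t2 : 0 ≤ (8 + 4 * (U : ℝ)) / η := by positivity
  have t3 : 0 ≤ (U3 : ℝ) * (3 + 4 / (η / 4)) := by positivity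
  have hN1 : (200 : ℝ) ≤ Fintype.card V := by linarith
  have hN2 : 8 ≤ η * Fintype.card V := by
    have : 8 / η ≤ Fintype.card V := by linarith
    rw [div_le_iff₀ hη] at this
    linarith
  have hN3 : 8 + 4 * (U : ℝ) ≤ η * Fintype.card V := by
    have : (8 + 4 * (U : ℝ)) / η ≤ Fintype.card V := by linarith
    rw [div_le_iff₀ hη] at this
    linarith
  have hN4 : (U3 : ℝ) * (3 + 4 / (η / 4)) < Fintype.card V := by linarith
  have hqN : q ≤ Fintype.card V := by have := hM.le; omega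
  have hpt : ∀ i, ∀ v, ptn (C \ R) c i (ptn (C \ R) c i v) = v := fun i =>
    (hPTN V (C \ R) q c hc i).1.1
  -- the numbers
  set pa : ℕ → ℕ := fun i => (((X ∩ A) \ H i).card - ((X \ A) \ H i).card) / 2 with hpa
  set pb : ℕ → ℕ := fun i => (((X \ A) \ H i).card - ((X ∩ A) \ H i).card) / 2 with hpb
  have hnum : ∀ i < q, pa i * 2 + ((X \ A) \ H i).card = pb i * 2 + ((X ∩ A) \ H i).card ∧
      pa i + pb i ≤ U := fun i hi =>
    EJA_num X A (H i) U (hM.Hs i hi).2.1 (hM.Hs i hi).2.2 hM.siz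
  have hp0 : ∀ i, pb i ≠ 0 → pa i = 0 := by
    intro i h0
    simp only [hpa, hpb] at h0 ⊢
    omega
  -- the single edges
  have hEA : 50 * (U + 1) * Fintype.card V ≤ (EJA_ed E0 (X ∩ A)).card := by
    have h1 := hM.e0A
    rw [EJA_ep] at h1
    have h2 : 50 * ((U : ℝ) + 1) * Fintype.card V ≤ (EJA_ed E0 (X ∩ A)).card := by
      push_cast at h1
      linarith
    exact_mod_cast h2
  have hEB : 50 * (U + 1) * Fintype.card V ≤ (EJA_ed E0 (X \ A)).card := by
    have h1 := hM.e0B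
    rw [EJA_ep] at h1
    have h2 : 50 * ((U : ℝ) + 1) * Fintype.card V ≤ (EJA_ed E0 (X \ A)).card := by
      push_cast at h1
      linarith
    exact_mod_cast h2
  obtain ⟨sg, hS⟩ := EJA_singles E0 (fun i => if pb i = 0 then X ∩ A else X \ A)
    (fun i => pa i + pb i) H (fun i => ptn (C \ R) c i) q U U3 (η / 4) (by positivity)
    (by linarith) hqN (fun i hi => (hnum i hi).2) (fun i hi => (hM.Hs i hi).2.1)
    (fun i _ => hpt i) hM.e0d (by
      intro i _
      by_cases h0 : pb i = 0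
      · simp only [if_pos h0]; exact hEA
      · simp only [if_neg h0]; exact hEB) hN4
  have hsA : ∀ i < q, (EJA_ed W (X ∩ A) ∩ sg i).card = pa i := by
    intro i hi
    have h1 := hS.sub i hi
    have h2 := hS.crd i hi
    by_cases h0 : pb i = 0
    · simp only [if_pos h0] at h1
      rw [Finset.inter_eq_right.2 (h1.trans (EJA_mono hM.e0 _)), h2, h0, add_zero]
    · simp only [if_neg h0] at h1
      rw [Finset.disjoint_iff_inter_eq_empty.1 ((EJA_disj W X A).mono_right
        (h1.trans (EJA_mono hM.e0 _))), Finset.card_empty, hp0 i h0]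
  have hsB : ∀ i < q, (EJA_ed W (X \ A) ∩ sg i).card = pb i := by
    intro i hi
    have h1 := hS.sub i hi
    have h2 := hS.crd i hi
    by_cases h0 : pb i = 0
    · simp only [if_pos h0] at h1
      rw [Finset.disjoint_iff_inter_eq_empty.1 ((EJA_disj W X A).symm.mono_right
        (h1.trans (EJA_mono hM.e0 _))), Finset.card_empty, h0]
    · simp only [if_neg h0] at h1
      rw [Finset.inter_eq_right.2 (h1.trans (EJA_mono hM.e0 _)), h2, hp0 i h0, zero_add]
  have hsW : ∀ i < q, ∀ e ∈ sg i, e ∈ W.edgeSet := by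
    intro i hi e he
    exact (EJA_mem.1 (EJA_mono hM.e0 _ (hS.sub i hi he))).1
  -- the balance
  have hbal : (EJA_ed W (X ∩ A) \ (Finset.range q).biUnion sg).card =
      (EJA_ed W (X \ A) \ (Finset.range q).biUnion sg).card := by
    have h1 := EJA_un (EJA_ed W (X ∩ A)) q sg pa hS.dis hsA
    have h2 := EJA_un (EJA_ed W (X \ A)) q sg pb hS.dis hsB
    have h3 := hBID V W C E0 A X q f H h ε ζ θ U U3 hM
    rw [EJA_ep, EJA_ep] at h3
    have h4 : ∑ i ∈ Finset.range q, ((((X ∩ A) \ H i).card : ℤ) - ((X \ A) \ H i).card) =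
        2 * ∑ i ∈ Finset.range q, (pa i : ℤ) - 2 * ∑ i ∈ Finset.range q, (pb i : ℤ) := by
      rw [Finset.mul_sum, Finset.mul_sum, ← Finset.sum_sub_distrib]
      refine Finset.sum_congr rfl fun i hi => ?_
      have h5 := (hnum i (Finset.mem_range.1 hi)).1
      have h6 : ((pa i : ℤ)) * 2 + ((X \ A) \ H i).card =
        (pb i : ℤ) * 2 + ((X ∩ A) \ H i).card := by exact_mod_cast h5
      linarith
    rw [h4] at h3
    have h5 : ((EJA_ed W (X ∩ A)).card : ℤ) + ∑ i ∈ Finset.range q, (pb i : ℤ) =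
        (EJA_ed W (X \ A)).card + ∑ i ∈ Finset.range q, (pa i : ℤ) := by
      push_cast at h3
      linarith
    have h6 : (EJA_ed W (X ∩ A)).card + ∑ i ∈ Finset.range q, pb i =
        (EJA_ed W (X \ A)).card + ∑ i ∈ Finset.range q, pa i := by
      exact_mod_cast h5
    omega
  -- the items
  set n := (EJA_ed W (X ∩ A) \ (Finset.range q).biUnion sg).card with hn
  set eA := (EJA_ed W (X ∩ A) \ (Finset.range q).biUnion sg).equivFinOfCardEq hn.symm with heA
  set eB := (EJA_ed W (X \ A) \ (Finset.range q).biUnion sg).equivFinOfCardEq hbal.symm with heB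
  set fa : Fin n → Sym2 V := fun j => (eA.symm j : Sym2 V) with hfa
  set ga : Fin n → Sym2 V := fun j => (eB.symm j : Sym2 V) with hga
  have hfinj : Function.Injective fa := fun i j hij => eA.symm.injective (Subtype.ext hij)
  have hginj : Function.Injective ga := fun i j hij => eB.symm.injective (Subtype.ext hij)
  have hnot : ∀ e : Sym2 V, e ∉ (Finset.range q).biUnion sg ↔ ∀ i < q, e ∉ sg i := by
    intro e
    rw [Finset.mem_biUnion]
    push Not
    exact ⟨fun h i hi => h i (Finset.mem_range.2 hi), fun h i hi => h i (Finset.mem_range.1 hi)⟩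
  have hfm : ∀ e, (∃ j, fa j = e) ↔ e ∈ EJA_ed W (X ∩ A) ∧ ∀ i < q, e ∉ sg i := by
    intro e
    rw [← hnot, ← Finset.mem_sdiff]
    constructor
    · rintro ⟨j, rfl⟩
      exact (eA.symm j).2
    · intro he
      exact ⟨eA ⟨e, he⟩, by rw [hfa]; simp only [Equiv.symm_apply_apply]⟩
  have hgm : ∀ e, (∃ j, ga j = e) ↔ e ∈ EJA_ed W (X \ A) ∧ ∀ i < q, e ∉ sg i := by
    intro e
    rw [← hnot, ← Finset.mem_sdiff]
    constructor
    · rintro ⟨j, rfl⟩
      exact (eB.symm j).2
    · intro he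
      exact ⟨eB ⟨e, he⟩, by rw [hga]; simp only [Equiv.symm_apply_apply]⟩
  have hfE : ∀ j, fa j ∈ EJA_ed W (X ∩ A) := fun j => ((hfm _).1 ⟨j, rfl⟩).1
  have hgE : ∀ j, ga j ∈ EJA_ed W (X \ A) := fun j => ((hgm _).1 ⟨j, rfl⟩).1
  have hvX : ∀ j v, (v ∈ fa j ∨ v ∈ ga j) → v ∈ X := by
    intro j v hv
    rcases hv with hv | hv
    · exact (Finset.mem_inter.1 ((EJA_mem.1 (hfE j)).2 v hv)).1
    · exact (Finset.mem_sdiff.1 ((EJA_mem.1 (hgE j)).2 v hv)).1
  have hDd : ∀ v, dg W v ≤ ⌊θ * Fintype.card V⌋₊ := by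
    intro v
    by_cases hv : v ∈ X
    · exact Nat.le_floor (hM.lit v hv).2.2
    · have : dg W v = 0 := by
        unfold dg dgs
        rw [Finset.card_eq_zero]
        apply Finset.eq_empty_of_forall_notMem
        intro w hw
        rw [Finset.mem_filter] at hw
        exact hv (hM.wX v w hw.2).1
      rw [this]
      exact Nat.zero_le _
  have hDr : (⌊θ * Fintype.card V⌋₊ : ℝ) ≤ θ * Fintype.card V :=
    Nat.floor_le (by positivity)
  have hHd : ∀ v ∈ X, ((Finset.range q).filter fun i => v ∈ H i).card ≤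
      ⌊θ * Fintype.card V⌋₊ := fun v hv => Nat.le_floor (hM.lit v hv).1
  generalize ⌊θ * Fintype.card V⌋₊ = D at hDd hDr hHd
  have hn2 : 2 * n ≤ Fintype.card V * D := by
    have h1 : n ≤ (EJA_ed W (X ∩ A)).card := Finset.card_le_card Finset.sdiff_subset
    have h2 := EJA_ep W (X ∩ A)
    have h3 : ep W (X ∩ A) (X ∩ A) ≤ Fintype.card V * D := by
      unfold ep
      calc ∑ v ∈ X ∩ A, dgs W (X ∩ A) v ≤ ∑ _v ∈ X ∩ A, D := by
            refine Finset.sum_le_sum fun v _ => le_trans ?_ (hDd v)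
            unfold dg dgs
            exact Finset.card_le_card (Finset.filter_subset_filter _ (Finset.subset_univ _))
        _ = (X ∩ A).card * D := by rw [Finset.sum_const, smul_eq_mul]
        _ ≤ Fintype.card V * D := Nat.mul_le_mul_right _ (Finset.card_le_univ _)
    omega
  obtain ⟨cp, load, o, k1, k2, k3, k4, k5, k6⟩ := EJA_consts η θ (Fintype.card V) q n D U hη
    hθpos hθ1 hθ2 hN1 hN2 hN3 hM.ql hDr hn2
  have hq0 : 0 < q := by
    have h1 := hM.ql
    have h2 : (0 : ℝ) < q := by linarith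
    exact_mod_cast h2
  obtain ⟨a, ha1, ha2, ha3, ha4, ha5⟩ := EJA_gra hGRA n q D cp load o hq0 fa ga H sg
    (fun i => ptn (C \ R) c i)
    (fun v => (EJA_it W fa hfinj (fun j => (EJA_mem.1 (hfE j)).1) v).trans (hDd v))
    (fun v => (EJA_it W ga hginj (fun j => (EJA_mem.1 (hgE j)).1) v).trans (hDd v))
    (fun j v hv => hHd v (hvX j v hv))
    (fun v => (EJA_sv W q sg hsW hS.dis v).trans (hDd v))
    (by
      intro v u huv
      rw [Finset.card_le_one]
      intro i hi j hj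
      rw [Finset.mem_filter] at hi hj
      have key : ∀ i, ptn (C \ R) c i v = u → c s(v, u) = i := by
        intro i hi
        obtain ⟨m1, m2, -⟩ := hPTN V (C \ R) q c hc i
        have h1 : (C \ R).Adj v u := by
          have := m1.2 v (by rw [hi]; exact huv)
          rwa [hi] at this
        exact (m2 v u h1).1 hi
      rw [← key i hi.2, ← key j hj.2])
    k1 k2 k3 k4
  obtain ⟨cw, hcw, hcol⟩ := EJA_col W A X q hM.wX sg n fa ga a hfinj hginj hfm hgm hS.dj hS.dis
    ha1 ha2 (fun j v hv => (ha3 j v hv).2)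
  have hE := hPTN V W q cw hcw
  have hfg : ∀ j, fa j ∉ EJA_ed W (X \ A) := fun j h =>
    Finset.disjoint_left.1 (EJA_disj W X A) (hfE j) h
  have hgf : ∀ j, ga j ∉ EJA_ed W (X ∩ A) := fun j h =>
    Finset.disjoint_left.1 (EJA_disj W X A) h (hgE j)
  -- the numbers of covered vertices
  have hcA : ∀ i < q, ((X ∩ A).filter fun x => ptn W cw i x ≠ x).card =
      2 * (pa i + (Finset.univ.filter fun j => a j = i).card) := by
    intro i hi
    rw [EJA_cov hPTN hcw i (X ∩ A) (by
      intro v w hvw hv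
      rw [Finset.mem_inter] at hv ⊢
      exact ⟨(hM.wX v w hvw).2.1, (hM.wX v w hvw).2.2.1 hv.2⟩)]
    rw [EJA_cnt (EJA_ed W (X ∩ A)) (sg i) fa hfinj a i cw ?_ hfE ?_, hsA i hi]
    · intro e he
      rw [hcol e (EJA_mem.1 he).1 i hi]
      constructor
      · rintro (h1 | ⟨j, hj, h1 | h1⟩)
        · exact Or.inl h1
        · exact Or.inr ⟨j, hj, h1⟩
        · exact (hgf j (h1 ▸ he)).elim
      · rintro (h1 | ⟨j, hj, h1⟩)
        · exact Or.inl h1
        · exact Or.inr ⟨j, hj, Or.inl h1⟩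
    · intro j _
      exact ((hfm _).1 ⟨j, rfl⟩).2 i hi
  have hcB : ∀ i < q, ((X \ A).filter fun x => ptn W cw i x ≠ x).card =
      2 * (pb i + (Finset.univ.filter fun j => a j = i).card) := by
    intro i hi
    rw [EJA_cov hPTN hcw i (X \ A) (by
      intro v w hvw hv
      rw [Finset.mem_sdiff] at hv ⊢
      exact ⟨(hM.wX v w hvw).2.1, fun h => hv.2 ((hM.wX v w hvw).2.2.2 h)⟩)]
    rw [EJA_cnt (EJA_ed W (X \ A)) (sg i) ga hginj a i cw ?_ hgE ?_, hsB i hi]
    · intro e he
      rw [hcol e (EJA_mem.1 he).1 i hi]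
      constructor
      · rintro (h1 | ⟨j, hj, h1 | h1⟩)
        · exact Or.inl h1
        · exact (hfg j (h1 ▸ he)).elim
        · exact Or.inr ⟨j, hj, h1⟩
      · rintro (h1 | ⟨j, hj, h1⟩)
        · exact Or.inl h1
        · exact Or.inr ⟨j, hj, Or.inr h1⟩
    · intro j _
      exact ((hgm _).1 ⟨j, rfl⟩).2 i hi
  -- edges of one colour
  have hedge : ∀ i < q, ∀ v, ptn W cw i v ≠ v → (∃ e ∈ sg i, v ∈ e) ∨
      ∃ j, a j = i ∧ (v ∈ fa j ∨ v ∈ ga j) := by
    intro i hi v hv
    have h1 : W.Adj v (ptn W cw i v) := (hE i).1.2 v hv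
    have h2 : cw s(v, ptn W cw i v) = i := ((hE i).2.1 v _ h1).1 rfl
    rcases (hcol _ h1 i hi).1 h2 with h3 | ⟨j, hj, h3 | h3⟩
    · exact Or.inl ⟨_, h3, Sym2.mem_mk_left _ _⟩
    · exact Or.inr ⟨j, hj, Or.inl (h3 ▸ Sym2.mem_mk_left _ _)⟩
    · exact Or.inr ⟨j, hj, Or.inr (h3 ▸ Sym2.mem_mk_left _ _)⟩
  have hHi : ∀ i < q, ∀ x ∈ H i, ptn W cw i x = x := by
    intro i hi x hx
    by_contra hne
    rcases hedge i hi x hne with ⟨e, he, hxe⟩ | ⟨j, hj, h1⟩
    · exact hS.av i hi e he x hxe hx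
    · exact (ha3 j x h1).1 (hj ▸ hx)
  refine ⟨fun i => ptn W cw i, fun i _ => (hE i).1, ?_, ?_, hHi, ?_, ?_, ?_⟩
  · intro v w hvw
    exact ⟨cw s(v, w), hcw.1 v w hvw, ((hE _).2.1 v w hvw).2 rfl⟩
  · intro i _ j _ hij v hv he
    have h1 : W.Adj v (ptn W cw i v) := (hE i).1.2 v hv
    have h2 : cw s(v, ptn W cw i v) = i := ((hE i).2.1 v _ h1).1 rfl
    have h3 : cw s(v, ptn W cw i v) = j := ((hE j).2.1 v _ h1).1 he.symm
    exact hij (h2.symm.trans h3)
  · intro i hi
    have h1 : (Finset.univ.filter fun v => ptn W cw i v ≠ v) ⊆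
        ((X ∩ A).filter fun x => ptn W cw i x ≠ x) ∪
          ((X \ A).filter fun x => ptn W cw i x ≠ x) := by
      intro v hv
      rw [Finset.mem_filter] at hv
      have h2 : v ∈ X := (hM.wX v _ ((hE i).1.2 v hv.2)).1
      rw [Finset.mem_union, Finset.mem_filter, Finset.mem_filter, Finset.mem_inter,
        Finset.mem_sdiff]
      by_cases hvA : v ∈ A
      · exact Or.inl ⟨⟨h2, hvA⟩, hv.2⟩
      · exact Or.inr ⟨⟨h2, hvA⟩, hv.2⟩
    have h2 := (Finset.card_le_card h1).trans (Finset.card_union_le _ _)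
    rw [hcA i hi, hcB i hi] at h2
    have h3 := ha4 i
    have h4 := (hnum i hi).2
    have h5 : (Finset.univ.filter fun v => ptn W cw i v ≠ v).card ≤ 2 * U + 4 * cp := by omega
    have h6 : ((Finset.univ.filter fun v => ptn W cw i v ≠ v).card : ℝ) ≤ 2 * U + 4 * cp := by
      exact_mod_cast h5
    exact h6.trans k5
  · intro i hi
    have h1 := EJA_part (X ∩ A) (H i) (ptn W cw i) (hHi i hi)
    have h2 := EJA_part (X \ A) (H i) (ptn W cw i) (hHi i hi)
    have h3 := hcA i hi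
    have h4 := hcB i hi
    have h5 := (hnum i hi).1
    show ((X ∩ A).filter fun x => x ∉ H i ∧ ptn W cw i x = x).card =
      ((X \ A).filter fun x => x ∉ H i ∧ ptn W cw i x = x).card
    omega
  · intro v
    have h1 : ((Finset.range q).filter fun i => ptn W cw i (ptn (C \ R) c i v) ≠
        ptn (C \ R) c i v) ⊆
        (((Finset.range q).filter fun i => has W cw v i) ∪
          ((Finset.range q).filter fun i => ∃ e ∈ sg i, ∃ w ∈ e, ptn (C \ R) c i w = v)) ∪
        (Finset.univ.filter fun j => ∃ w, (w ∈ fa j ∨ w ∈ ga j) ∧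
          (ptn (C \ R) c (a j) w = v ∧ v ≠ w)).image a := by
      intro i hi
      rw [Finset.mem_filter] at hi
      rw [Finset.mem_union, Finset.mem_union]
      have hiq := Finset.mem_range.1 hi.1
      by_cases hvv : ptn (C \ R) c i v = v
      · left; left
        have := hi.2
        rw [hvv] at this
        exact Finset.mem_filter.2 ⟨hi.1, ((hE i).2.2 v).1 this⟩
      · rcases hedge i hiq _ hi.2 with ⟨e, he, h2⟩ | ⟨j, hj, h2⟩
        · left; right
          exact Finset.mem_filter.2 ⟨hi.1, e, he, _, h2, hpt i v⟩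
        · right
          refine Finset.mem_image.2 ⟨j, Finset.mem_filter.2 ⟨Finset.mem_univ _,
            ptn (C \ R) c i v, h2, ?_, fun h => hvv h.symm⟩, hj⟩
          rw [hj]
          exact hpt i v
    have h2 := (Finset.card_le_card h1).trans ((Finset.card_union_le _ _).trans
      (add_le_add (Finset.card_union_le _ _) Finset.card_image_le))
    rw [hSCN V W q cw hcw v] at h2
    have h3 := hDd v
    have h4 := hS.ld v
    have h5 := ha5 v
    have h6 : (((Finset.range q).filter fun i => ptn W cw i (ptn (C \ R) c i v) ≠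
        ptn (C \ R) c i v).card : ℝ) ≤ (dg W v : ℝ) +
        (((Finset.range q).filter fun i => ∃ e ∈ sg i, ∃ w ∈ e,
          ptn (C \ R) c i w = v).card : ℝ) + ((Finset.univ.filter fun j => ∃ w,
          (w ∈ fa j ∨ w ∈ ga j) ∧ (ptn (C \ R) c (a j) w = v ∧ v ≠ w)).card : ℝ) := by
      exact_mod_cast h2
    have h7 : (dg W v : ℝ) ≤ D := by exact_mod_cast h3
    have h8 : ((Finset.univ.filter fun j => ∃ w,
          (w ∈ fa j ∨ w ∈ ga j) ∧ (ptn (C \ R) c (a j) w = v ∧ v ≠ w)).card : ℝ) ≤ load := by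
      exact_mod_cast h5
    linarith

end

end Pool.Agent.OF
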