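import Pool.Agent.helper86.OF.SpecL

/-!
# Project of: module MDU (helper89): Hall and Mendelsohn-Dulmage
-/

open scoped BigOperators

namespace Pool.Agent.OF

noncomputable section

open Classical

/-- Hall's theorem for a set of vertices -/
theorem MDU_hall (V : Type) [Fintype V] (G : SimpleGraph V) (S : Finset V)
    (h : ∀ S' ⊆ S, S'.card ≤ (Finset.univ.filter fun w => ∃ v ∈ S', G.Adj v w).card) :
    ∃ f : V → V, (∀ v ∈ S, G.Adj v (f v)) ∧ ∀ v ∈ S, ∀ w ∈ S, f v = f w → v = w := by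
  have h1 : ∀ s : Finset S, s.card ≤ (s.biUnion fun v => Finset.univ.filter fun w => G.Adj (v : V) w).card := by
    intro s
    have h2 := h (s.map (Function.Embedding.subtype _)) (by
      intro v hv
      rw [Finset.mem_map] at hv
      obtain ⟨w, _, rfl⟩ := hv
      exact w.2)
    rw [Finset.card_map] at h2
    refine h2.trans (Finset.card_le_card ?_)
    intro w hw
    rw [Finset.mem_filter] at hw
    obtain ⟨_, v, hv, hvw⟩ := hw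
    rw [Finset.mem_map] at hv
    obtain ⟨u, hu, rfl⟩ := hv
    rw [Finset.mem_biUnion]
    exact ⟨u, hu, by simpa using hvw⟩
  obtain ⟨f, hf1, hf2⟩ := (Finset.all_card_le_biUnion_card_iff_exists_injective
    (fun v : S => Finset.univ.filter fun w => G.Adj (v : V) w)).1 h1
  refine ⟨fun v => if hv : v ∈ S then f ⟨v, hv⟩ else v, ?_, ?_⟩
  · intro v hv
    simp only [dif_pos hv]
    have := hf2 ⟨v, hv⟩
    rw [Finset.mem_filter] at this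
    exact this.2
  · intro v hv w hw hvw
    simp only [dif_pos hv, dif_pos hw] at hvw
    exact congrArg Subtype.val (hf1 hvw)

theorem MDU : MDU_stmt := by
  intro V _ G A S T hbip hSA hTA hS hT
  obtain ⟨f, hf1, hf2⟩ := MDU_hall V G S hS
  obtain ⟨g, hg1, hg2⟩ := MDU_hall V G T hT
  have hTn : ∀ v ∈ T, v ∉ A := fun v hv hA => Finset.disjoint_left.1 hTA hv hA
  have hfA : ∀ v ∈ S, f v ∉ A := by
    intro v hv hA
    exact hbip v (f v) (hf1 v hv) ⟨fun _ => hA, fun _ => hSA hv⟩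
  have hgA : ∀ v ∈ T, g v ∈ A := by
    intro v hv
    by_contra hA
    exact hbip v (g v) (hg1 v hv) ⟨fun h => absurd h (hTn v hv), fun h => absurd h hA⟩
  -- the fixed point
  let F : Set V →o Set V := ⟨fun X => (S : Set V) \ g '' ((T : Set V) \ f '' X), by
    intro X Y hXY v hv
    refine ⟨hv.1, fun h => hv.2 ?_⟩
    obtain ⟨w, hw, rfl⟩ := h
    exact ⟨w, ⟨hw.1, fun h => hw.2 (Set.image_mono hXY h)⟩, rfl⟩⟩
  obtain ⟨X, hX⟩ : ∃ X : Set V, (S : Set V) \ g '' ((T : Set V) \ f '' X) = X :=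
    ⟨F.lfp, F.map_lfp⟩
  have hXS : ∀ v ∈ X, v ∈ S := by
    intro v hv
    rw [← hX] at hv
    exact Finset.mem_coe.1 hv.1
  have hXA : ∀ v ∈ X, v ∈ A := fun v hv => hSA (hXS v hv)
  have hXg : ∀ w ∈ T, w ∉ f '' X → g w ∉ X := by
    intro w hw hwf h
    rw [← hX] at h
    exact h.2 ⟨w, ⟨hw, hwf⟩, rfl⟩
  have hSX : ∀ v ∈ S, v ∉ X → ∃ w, w ∈ T ∧ w ∉ f '' X ∧ g w = v := by
    intro v hv hvX
    by_contra hno
    push Not at hno
    apply hvX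
    rw [← hX]
    refine ⟨hv, ?_⟩
    rintro ⟨w, hw, hwv⟩
    exact hno w hw.1 hw.2 hwv
  -- the matching
  have hdef : ∀ v, ∃ w, (v ∈ X ∧ w = f v) ∨ (∃ x ∈ X, f x = v ∧ w = x) ∨
      (v ∈ T ∧ v ∉ f '' X ∧ w = g v) ∨ (∃ y ∈ T, y ∉ f '' X ∧ g y = v ∧ w = y) ∨
      (v ∉ X ∧ v ∉ f '' X ∧ v ∉ T ∧ (∀ y ∈ T, y ∉ f '' X → g y ≠ v) ∧ w = v) := by
    intro v
    by_cases h1 : v ∈ X
    · exact ⟨f v, Or.inl ⟨h1, rfl⟩⟩
    by_cases h2 : v ∈ f '' X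
    · obtain ⟨x, hx, hxv⟩ := h2
      exact ⟨x, Or.inr (Or.inl ⟨x, hx, hxv, rfl⟩)⟩
    by_cases h3 : v ∈ T
    · exact ⟨g v, Or.inr (Or.inr (Or.inl ⟨h3, h2, rfl⟩))⟩
    by_cases h4 : ∃ y ∈ T, y ∉ f '' X ∧ g y = v
    · obtain ⟨y, hy, hy1, hy2⟩ := h4
      exact ⟨y, Or.inr (Or.inr (Or.inr (Or.inl ⟨y, hy, hy1, hy2, rfl⟩)))⟩
    · push Not at h4
      exact ⟨v, Or.inr (Or.inr (Or.inr (Or.inr ⟨h1, h2, h3, h4, rfl⟩)))⟩
  choose m hm using hdef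
  -- the values of `m`
  have m1 : ∀ v ∈ X, m v = f v := by
    intro v hv
    rcases hm v with h | ⟨x, hx, hxv, _⟩ | ⟨h, _⟩ | ⟨y, hy, hyX, hyv, _⟩ | ⟨h, _⟩
    · exact h.2
    · exact absurd (hXA v hv) (hxv ▸ hfA x (hXS x hx))
    · exact absurd (hXA v hv) (hTn v h)
    · exact absurd hv (hyv ▸ hXg y hy hyX)
    · exact absurd hv h
  have m2 : ∀ x ∈ X, m (f x) = x := by
    intro x hx
    rcases hm (f x) with h | ⟨x', hx', hxv, h⟩ | ⟨_, h, _⟩ | ⟨y, hy, hyX, hyv, _⟩ | ⟨_, h, _⟩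
    · exact absurd (hXA _ h.1) (hfA x (hXS x hx))
    · rw [h]; exact hf2 _ (hXS x' hx') _ (hXS x hx) hxv
    · exact absurd ⟨x, hx, rfl⟩ h
    · exact absurd (hgA y hy) (hyv ▸ hfA x (hXS x hx))
    · exact absurd ⟨x, hx, rfl⟩ h
  have m3 : ∀ w ∈ T, w ∉ f '' X → m w = g w := by
    intro w hw hwX
    rcases hm w with h | ⟨x', hx', hxv, h⟩ | ⟨_, _, h⟩ | ⟨y, hy, hyX, hyv, _⟩ | ⟨_, _, h, _⟩
    · exact absurd (hXA _ h.1) (hTn w hw)
    · exact absurd ⟨x', hx', hxv⟩ hwX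
    · exact h
    · exact absurd (hgA y hy) (hyv ▸ hTn w hw)
    · exact absurd hw h
  have m4 : ∀ w ∈ T, w ∉ f '' X → m (g w) = w := by
    intro w hw hwX
    rcases hm (g w) with h | ⟨x', hx', hxv, h⟩ | ⟨h, _, _⟩ | ⟨y, hy, hyX, hyv, h⟩ | ⟨_, _, _, h, _⟩
    · exact absurd h.1 (hXg w hw hwX)
    · exact absurd (hgA w hw) (hxv ▸ hfA x' (hXS x' hx'))
    · exact absurd (hgA w hw) (hTn _ h)
    · rw [h]; exact hg2 _ hy _ hw hyv
    · exact absurd rfl (h w hw hwX)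
  refine ⟨m, ⟨?_, ?_⟩, ?_, ?_⟩
  · intro v
    rcases hm v with ⟨h, e⟩ | ⟨x, hx, hxv, e⟩ | ⟨h, hX', e⟩ | ⟨y, hy, hyX, hyv, e⟩ | ⟨_, _, _, _, e⟩
    · rw [e, m2 v h]
    · rw [e, m1 x hx, hxv]
    · rw [e, m4 v h hX']
    · rw [e, m3 y hy hyX, hyv]
    · rw [e, e]
  · intro v hne
    rcases hm v with ⟨h, e⟩ | ⟨x, hx, hxv, e⟩ | ⟨h, hX', e⟩ | ⟨y, hy, hyX, hyv, e⟩ | ⟨_, _, _, _, e⟩
    · rw [e]; exact hf1 v (hXS v h)
    · rw [e, ← hxv]; exact (hf1 x (hXS x hx)).symm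
    · rw [e]; exact hg1 v h
    · rw [e, ← hyv]; exact (hg1 y hy).symm
    · exact absurd e hne
  · intro v hv
    by_cases hvX : v ∈ X
    · rw [m1 v hvX]
      exact (hf1 v hv).ne'
    · obtain ⟨w, hw, hwX, hwv⟩ := hSX v hv hvX
      rw [← hwv, m4 w hw hwX]
      exact (hg1 w hw).ne
  · intro v hv
    by_cases hvX : v ∈ f '' X
    · obtain ⟨x, hx, hxv⟩ := hvX
      rw [← hxv, m2 x hx]
      exact (hf1 x (hXS x hx)).ne
    · rw [m3 v hv hvX]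
      exact (hg1 v hv).ne'

end

end Pool.Agent.OF
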